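import Pool.Graph.R_seed8.Results.MP_f298ee_co.ExplicitSaving

set_option autoImplicit false

/-!
# Better exponents in the explicit bounds for the flash-rainbow numbers
-/

namespace Pool.Agent.Results.MP_f298ee_co.BetterExponents

open Finset Pool.Agent.TH780.FR Pool.Agent.Y873.FL
open Pool.Agent.Results.MP_f298ee_co.ExplicitSaving (HasFlash HasRainbow Forces f)

/-- for all `l` the saving `2 ^ e` with `10 e² ≤ log₂ R + 1` is admissible -/
theorem unif10 (G : ℕ) : ∃ R0 : ℕ, ∀ R ≥ R0, ∀ l ≥ 3, ∀ e, 10 * e ^ 2 ≤ Nat.log 2 R + 1 →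
    Par G l R (2 ^ e) := by
  obtain ⟨R0, hR0⟩ := basics G
  obtain ⟨R1, hR1⟩ := parS G
  obtain ⟨R2, hR2⟩ := parL G
  refine ⟨R0 + R1 + R2, fun R hR l hl e he => ?_⟩
  obtain ⟨hk, hYbig, hRlow, hRup, z, hYz, hzY, hzin, hz1⟩ := hR0 R (by omega) _ rfl
  have pS := hR1 R (by omega) l hl
  have pL := hR2 R (by omega) l hl
  set Y := Nat.log 2 R + 1 with hY
  clear_value Y
  have hY1 : 1 ≤ Y := by omega
  have hee : e ≤ e ^ 2 := by nlinarith [Nat.zero_le e, sq_nonneg e]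
  rcases Nat.lt_or_ge l (Y ^ 6 * (2 ^ e) ^ 2) with hlt | hge
  · refine pS (6 * z + 2 * e) ?_ (2 ^ e) (Nat.one_le_two_pow) ?_
    · refine hlt.le.trans ?_
      calc Y ^ 6 * (2 ^ e) ^ 2 ≤ (2 ^ z) ^ 6 * (2 ^ e) ^ 2 := by gcongr
        _ = 2 ^ (6 * z + 2 * e) := by rw [← pow_mul, ← pow_mul, ← pow_add]; congr 1; ring
    · calc (Y ^ 18 * (2 ^ e) ^ 3) ^ (6 * z + 2 * e) * (Y ^ 4 * 2 ^ e)
          ≤ ((2 ^ z) ^ 18 * (2 ^ e) ^ 3) ^ (6 * z + 2 * e) * ((2 ^ z) ^ 4 * 2 ^ e) := by gcongr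
        _ = 2 ^ ((18 * z + 3 * e) * (6 * z + 2 * e) + (4 * z + e)) := by
            rw [← pow_mul, ← pow_mul, ← pow_add, ← pow_mul, ← pow_mul, ← pow_add, ← pow_add]
            congr 1; ring
        _ ≤ 2 ^ (Y - 1) := by
            apply Nat.pow_le_pow_right (by norm_num)
            have h1 : 54 * (z * e) ≤ e ^ 2 + 729 * z ^ 2 := by
              nlinarith [two_mul_le_add_sq (e : ℤ) (27 * z)]
            have h2 : (18 * z + 3 * e) * (6 * z + 2 * e) + (4 * z + e) =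
              108 * z ^ 2 + 54 * (z * e) + 6 * e ^ 2 + 4 * z + e := by ring
            rw [h2]
            have h3 : z ≤ z ^ 2 := by nlinarith
            have h4 : 1 ≤ z ^ 2 := by nlinarith
            omega
        _ ≤ R := hRlow
  · refine pL (2 ^ e) (Nat.one_le_two_pow) hge ?_
    calc Y ^ 6 * 2 ^ e ≤ (2 ^ z) ^ 6 * 2 ^ e := by gcongr
      _ = 2 ^ (6 * z + e) := by rw [← pow_mul, ← pow_add]; congr 1; ring
      _ ≤ 2 ^ (Y - 1) := by
          apply Nat.pow_le_pow_right (by norm_num)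
          have h3 : z ≤ z ^ 2 := by nlinarith
          have h4 : 1 ≤ z ^ 2 := by nlinarith
          omega
      _ ≤ R := hRlow


theorem rate1' : ∃ A : ℕ, ∀ l ≥ 3, ∀ (R' : ℕ) (c : ℕ → ℕ → ℕ) (V : Finset ℕ) (lam : ℕ → ℕ → ℕ),
    Lev c V l lam → RB c V R' → ∀ e, 11 * e ^ 2 ≤ Nat.log 2 R' + 1 →
    V.card ≤ A * (R' / 2 ^ e + 2) * l ^ R' := by
  obtain ⟨G, hG⟩ := main_gen
  obtain ⟨R0, hR0⟩ := unif10 G
  obtain ⟨A, hA⟩ := hG R0
  refine ⟨A, fun l hl R' c V lam hL hRB e he => ?_⟩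
  have h1 := hA l hl R' (R' / 2 ^ e + 1) (by
    intro R hR hRR'
    rcases Nat.lt_or_ge (R' / 2 ^ e + 1) R with h | h
    · refine ⟨2 ^ e, Nat.one_le_two_pow, hR0 R hR l hl e ?_, ?_⟩
      · have h2 := log_close h
        have hee : e ≤ e ^ 2 := by nlinarith [Nat.zero_le e]
        omega
      · exact hRR'.trans (Nat.lt_mul_div_succ R' (by positivity)).le
    · refine ⟨1, le_rfl, ?_, by omega⟩
      have := hR0 R hR l hl 0 (by omega)
      simpa using this) c V lam hL hRB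
  simpa [add_assoc] using h1

theorem rate2' : ∃ A : ℕ, ∀ l ≥ 3, ∀ L, l ≤ 2 ^ L → ∀ (R' : ℕ) (c : ℕ → ℕ → ℕ) (V : Finset ℕ)
    (lam : ℕ → ℕ → ℕ), Lev c V l lam → RB c V R' → ∀ e, 6 * L * e ≤ Nat.log 2 R' + 1 →
    V.card ≤ A * (R' / 2 ^ e + 2) * l ^ R' := by
  obtain ⟨G, hG⟩ := main_gen
  obtain ⟨R0, hR0⟩ := unif10 G
  obtain ⟨R1, hR1⟩ := parS G
  obtain ⟨R2, hR2⟩ := basics G
  obtain ⟨A, hA⟩ := hG (R0 + R1 + R2)
  refine ⟨A, fun l hl L hlL R' c V lam hL hRB e he => ?_⟩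
  have hL1 : 2 ≤ L := by
    by_contra h
    have h1 : L ≤ 1 := by omega
    have h2 : 2 ^ L ≤ 2 ^ 1 := Nat.pow_le_pow_right (by norm_num) h1
    omega
  have hee : e ≤ e ^ 2 := by nlinarith [Nat.zero_le e]
  have h1 := hA l hl R' (R' / 2 ^ e + 1) (by
    intro R hR hRR'
    rcases Nat.lt_or_ge (R' / 2 ^ e + 1) R with h | h
    · refine ⟨2 ^ e, Nat.one_le_two_pow, ?_, ?_⟩
      · have h2 := log_close h
        obtain ⟨hk, hYbig, hRlow, hRup, z, hYz, hzY, hzin, hz1⟩ := hR2 R (by omega) _ rfl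
        set Y := Nat.log 2 R + 1 with hY
        rcases Nat.lt_or_ge (Nat.log 2 R' + 1) (L ^ 2) with h3 | h3
        · -- large `L`
          apply hR0 R (by omega) l hl e
          have h4 : 36 * e ^ 2 * L ^ 2 ≤ (Nat.log 2 R' + 1) * L ^ 2 := by
            calc 36 * e ^ 2 * L ^ 2 = (6 * L * e) * (6 * L * e) := by ring
              _ ≤ (Nat.log 2 R' + 1) * (Nat.log 2 R' + 1) := Nat.mul_le_mul he he
              _ ≤ (Nat.log 2 R' + 1) * L ^ 2 := Nat.mul_le_mul_left _ h3.le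
          have h5 := Nat.le_of_mul_le_mul_right h4 (by positivity)
          omega
        · apply hR1 R (by omega) l hl L hlL (2 ^ e) Nat.one_le_two_pow
          rw [← hY]
          calc (Y ^ 18 * (2 ^ e) ^ 3) ^ L * (Y ^ 4 * 2 ^ e)
              ≤ ((2 ^ z) ^ 18 * (2 ^ e) ^ 3) ^ L * ((2 ^ z) ^ 4 * 2 ^ e) := by gcongr
            _ = 2 ^ ((18 * z + 3 * e) * L + (4 * z + e)) := by
                rw [← pow_mul, ← pow_mul, ← pow_add, ← pow_mul, ← pow_mul, ← pow_add, ← pow_add]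
                congr 1; ring
            _ ≤ 2 ^ (Y - 1) := by
                apply Nat.pow_le_pow_right (by norm_num)
                have h4 : 144 * (z * L) ≤ L ^ 2 + 5184 * z ^ 2 := by
                  nlinarith [two_mul_le_add_sq (L : ℤ) (72 * z)]
                have h5 : (18 * z + 3 * e) * L + (4 * z + e) =
                  18 * (z * L) + 3 * (L * e) + 4 * z + e := by ring
                rw [h5]
                have h6 : 6 * (L * e) ≤ Nat.log 2 R' + 1 := by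
                  calc 6 * (L * e) = 6 * L * e := by ring
                    _ ≤ _ := he
                have h7 : 2 * e ≤ L * e := Nat.mul_le_mul_right _ hL1
                have h8 : z ≤ z ^ 2 := by nlinarith
                have h9 : 1 ≤ z ^ 2 := by nlinarith
                omega
            _ ≤ R := hRlow
      · exact hRR'.trans (Nat.lt_mul_div_succ R' (by positivity)).le
    · refine ⟨1, le_rfl, ?_, by omega⟩
      have := hR0 R (by omega) l hl 0 (by omega)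
      simpa using this) c V lam hL hRB
  simpa [add_assoc] using h1


/-- the three explicit forms -/
noncomputable def B1' (k : ℕ) : ℝ := k * Real.exp (-(1 / 4) * Real.sqrt (Real.log k))

noncomputable def B2' (l k : ℕ) : ℝ := (k : ℝ) ^ (1 - 1 / (12 * Real.log l))

theorem half_le_B1' {k : ℕ} (hk : 1 ≤ k) : 1 / 2 ≤ B1' k := by
  have hk0 : (0 : ℝ) < k := by exact_mod_cast hk
  have hk1 : (1 : ℝ) ≤ k := by exact_mod_cast hk
  have hlog : 0 ≤ Real.log k := Real.log_nonneg hk1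
  have h1 : Real.sqrt (Real.log k) ≤ 1 + Real.log k := by
    rw [Real.sqrt_le_left (by linarith)]
    nlinarith
  have h2 : Real.exp (-1 / 4 - Real.log k) ≤ Real.exp (-(1 / 4) * Real.sqrt (Real.log k)) := by
    apply Real.exp_le_exp.mpr
    linarith
  have h3 : (k : ℝ) * Real.exp (-1 / 4 - Real.log k) = Real.exp (-1 / 4) := by
    rw [Real.exp_sub, Real.exp_log hk0]
    field_simp
  have h4 : (1 : ℝ) / 2 ≤ Real.exp (-1 / 4) := by
    have := Real.add_one_le_exp (-1 / 4 : ℝ)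
    linarith
  unfold B1'
  calc (1 : ℝ) / 2 ≤ Real.exp (-1 / 4) := h4
    _ = (k : ℝ) * Real.exp (-1 / 4 - Real.log k) := h3.symm
    _ ≤ _ := mul_le_mul_of_nonneg_left h2 hk0.le

theorem one_le_B2' {l k : ℕ} (hl : 2 ≤ l) (hk : 1 ≤ k) : 1 ≤ B2' l k := by
  have hk1 : (1 : ℝ) ≤ k := by exact_mod_cast hk
  have hl2 : (2 : ℝ) ≤ l := by exact_mod_cast hl
  have h1 : Real.log 2 ≤ Real.log l := Real.log_le_log (by norm_num) hl2
  have h2 := log_two_ge
  have h3 : 1 / (12 * Real.log l) ≤ 1 := by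
    rw [div_le_one (by linarith)]
    linarith
  unfold B2'
  exact Real.one_le_rpow hk1 (by linarith)

theorem conv1' {k : ℕ} (hk : 1 ≤ k) : ∃ e, 11 * e ^ 2 ≤ Nat.log 2 (k - 1) + 1 ∧
    (((k - 1) / 2 ^ e + 2 : ℕ) : ℝ) ≤ 6 * B1' k := by
  set Y' := Nat.log 2 (k - 1) + 1 with hY'
  have hlogY := log_le_Y hk
  rw [← hY'] at hlogY
  have hk0 : (0 : ℝ) < k := by exact_mod_cast hk
  have hk1 : (1 : ℝ) ≤ k := by exact_mod_cast hk
  have hlog : 0 ≤ Real.log k := Real.log_nonneg hk1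
  refine ⟨Nat.sqrt (Y' / 11), ?_, ?_⟩
  · have h1 := Nat.sqrt_le' (Y' / 11)
    omega
  · set e := Nat.sqrt (Y' / 11) with he
    have h1 : Y' / 11 < (e + 1) ^ 2 := Nat.lt_succ_sqrt' (Y' / 11)
    have h2 : Y' ≤ 11 * (e + 1) ^ 2 := by omega
    have h3 : (Y' : ℝ) ≤ 11 * ((e : ℝ) + 1) ^ 2 := by exact_mod_cast h2
    have hl2 := Real.log_two_gt_d9
    have hl2' := Real.log_two_lt_d9
    have hl2b : Real.log 2 * 16 * 11 ≤ (4 * (4 * Real.log 2)) ^ 2 := by nlinarith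
    have h4 : Real.sqrt (Real.log k) ≤ 4 * Real.log 2 * ((e : ℝ) + 1) := by
      rw [Real.sqrt_le_left (by positivity)]
      have h5 : (Y' : ℝ) * Real.log 2 ≤ 11 * ((e : ℝ) + 1) ^ 2 * Real.log 2 :=
        mul_le_mul_of_nonneg_right h3 (by linarith)
      have h5' : 11 * ((e : ℝ) + 1) ^ 2 * Real.log 2 ≤ (4 * Real.log 2 * ((e : ℝ) + 1)) ^ 2 := by
        have h5'' : 11 * Real.log 2 ≤ (4 * Real.log 2) ^ 2 := by nlinarith
        calc 11 * ((e : ℝ) + 1) ^ 2 * Real.log 2 = (11 * Real.log 2) * ((e : ℝ) + 1) ^ 2 := by ring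
          _ ≤ (4 * Real.log 2) ^ 2 * ((e : ℝ) + 1) ^ 2 :=
              mul_le_mul_of_nonneg_right h5'' (by positivity)
          _ = _ := by ring
      linarith
    have h6 : Real.exp (1 / 4 * Real.sqrt (Real.log k)) ≤ 2 * 2 ^ e := by
      calc Real.exp (1 / 4 * Real.sqrt (Real.log k))
          ≤ Real.exp (((e + 1 : ℕ) : ℝ) * Real.log 2) := by
            apply Real.exp_le_exp.mpr
            push_cast
            linarith
        _ = 2 ^ (e + 1) := by rw [Real.exp_nat_mul, Real.exp_log (by norm_num)]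
        _ = 2 * 2 ^ e := by ring
    have h7 : (k : ℝ) / 2 ^ e ≤ 2 * B1' k := by
      unfold B1'
      rw [neg_mul, Real.exp_neg, div_le_iff₀ (by positivity)]
      have h8 : 0 < Real.exp (1 / 4 * Real.sqrt (Real.log k)) := Real.exp_pos _
      rw [show 2 * ((k : ℝ) * (Real.exp (1 / 4 * Real.sqrt (Real.log k)))⁻¹) * 2 ^ e =
        (k * (2 * 2 ^ e)) / Real.exp (1 / 4 * Real.sqrt (Real.log k)) by field_simp]
      rw [le_div_iff₀ h8]
      exact mul_le_mul_of_nonneg_left h6 hk0.le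
    have h9 := half_le_B1' hk
    have h10 : (((k - 1) / 2 ^ e : ℕ) : ℝ) ≤ (k : ℝ) / 2 ^ e := by
      have h11 : ((k - 1) / 2 ^ e : ℕ) ≤ k / 2 ^ e := Nat.div_le_div_right (by omega)
      calc (((k - 1) / 2 ^ e : ℕ) : ℝ) ≤ ((k / 2 ^ e : ℕ) : ℝ) := by exact_mod_cast h11
        _ ≤ (k : ℝ) / ((2 ^ e : ℕ) : ℝ) := Nat.cast_div_le
        _ = _ := by push_cast; rfl
    have h12 : (((k - 1) / 2 ^ e + 2 : ℕ) : ℝ) = (((k - 1) / 2 ^ e : ℕ) : ℝ) + 2 := by
      push_cast; ring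
    rw [h12]
    linarith

theorem conv2' {l k : ℕ} (hl : 3 ≤ l) (hk : 1 ≤ k) :
    ∃ L, l ≤ 2 ^ L ∧ ∃ e, 6 * L * e ≤ Nat.log 2 (k - 1) + 1 ∧
    (((k - 1) / 2 ^ e + 2 : ℕ) : ℝ) ≤ 6 * B2' l k := by
  set Y' := Nat.log 2 (k - 1) + 1 with hY'
  have hlogY := log_le_Y hk
  rw [← hY'] at hlogY
  have hk0 : (0 : ℝ) < k := by exact_mod_cast hk
  have hk1 : (1 : ℝ) ≤ k := by exact_mod_cast hk
  have hlog : 0 ≤ Real.log k := Real.log_nonneg hk1
  set L := Nat.clog 2 l with hL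
  have hlL : l ≤ 2 ^ L := Nat.le_pow_clog (by norm_num) l
  have hLl : 2 ^ (L - 1) < l := by
    have := Nat.pow_pred_clog_lt_self (b := 2) (by norm_num) (x := l) (by omega)
    simpa [hL, Nat.pred_eq_sub_one] using this
  have hL2 : 2 ≤ L := by
    by_contra h
    have h1 : L ≤ 1 := by omega
    have h2 : 2 ^ L ≤ 2 ^ 1 := Nat.pow_le_pow_right (by norm_num) h1
    omega
  clear_value L
  refine ⟨L, hlL, Y' / (6 * L), Nat.mul_div_le _ _, ?_⟩
  set e := Y' / (6 * L) with he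
  have h1 : Y' < 6 * L * (e + 1) := Nat.lt_mul_div_succ Y' (by omega)
  clear_value e Y'
  have h3 : (Y' : ℝ) ≤ 6 * L * ((e : ℝ) + 1) := by exact_mod_cast h1.le
  have hlog2 := log_two_ge
  have hLlog : 3 * (L : ℝ) * Real.log 2 ≤ 4 * Real.log l := by
    have h4 : 2 ^ (3 * L) ≤ l ^ 4 := by
      rcases Nat.lt_or_ge L 4 with h5 | h5
      · interval_cases L
        · exact le_trans (by norm_num) (Nat.pow_le_pow_left hl 4)
        · have h6 : 5 ≤ l := by norm_num at hLl; omega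
          exact le_trans (by norm_num) (Nat.pow_le_pow_left h6 4)
      · calc 2 ^ (3 * L) ≤ 2 ^ ((L - 1) * 4) := Nat.pow_le_pow_right (by norm_num) (by omega)
          _ = (2 ^ (L - 1)) ^ 4 := by rw [← pow_mul]
          _ ≤ l ^ 4 := Nat.pow_le_pow_left hLl.le 4
    have h5 : ((2 : ℝ) ^ (3 * L)) ≤ (l : ℝ) ^ 4 := by exact_mod_cast h4
    have h6 := Real.log_le_log (by positivity) h5
    rw [Real.log_pow, Real.log_pow] at h6
    push_cast at h6
    linarith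
  have hL0 : (0 : ℝ) < L := by
    have : (2 : ℝ) ≤ L := by exact_mod_cast hL2
    linarith
  have hlogl : 0 < Real.log l := by
    have : 0 < 3 * (L : ℝ) * Real.log 2 := by positivity
    linarith
  have h6 : (k : ℝ) ^ (1 / (12 * Real.log l)) ≤ 2 * 2 ^ e := by
    rw [Real.rpow_def_of_pos hk0]
    calc Real.exp (Real.log k * (1 / (12 * Real.log l)))
        ≤ Real.exp (((e + 1 : ℕ) : ℝ) * Real.log 2) := by
          apply Real.exp_le_exp.mpr
          rw [mul_one_div, div_le_iff₀ (by positivity)]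
          push_cast
          have l2 := Real.log_two_gt_d9
          have e1 : (0 : ℝ) ≤ (e : ℝ) + 1 := by positivity
          calc Real.log k ≤ (Y' : ℝ) * Real.log 2 := hlogY
            _ ≤ (6 * L * ((e : ℝ) + 1)) * Real.log 2 :=
              mul_le_mul_of_nonneg_right h3 (by linarith)
            _ = 2 * ((e : ℝ) + 1) * (3 * (L : ℝ) * Real.log 2) := by ring
            _ ≤ 2 * ((e : ℝ) + 1) * (4 * Real.log l) :=
              mul_le_mul_of_nonneg_left hLlog (by positivity)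
            _ = ((e : ℝ) + 1) * (8 * Real.log l) := by ring
            _ ≤ ((e : ℝ) + 1) * ((12 * Real.log 2) * Real.log l) := by
              apply mul_le_mul_of_nonneg_left _ e1
              exact mul_le_mul_of_nonneg_right (by linarith) hlogl.le
            _ = ((e : ℝ) + 1) * Real.log 2 * (12 * Real.log l) := by ring
      _ = 2 ^ (e + 1) := by rw [Real.exp_nat_mul, Real.exp_log (by norm_num)]
      _ = 2 * 2 ^ e := by ring
  have h7 : (k : ℝ) / 2 ^ e ≤ 2 * B2' l k := by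
    unfold B2'
    rw [Real.rpow_sub hk0, Real.rpow_one, div_le_iff₀ (by positivity)]
    have h8 : 0 < (k : ℝ) ^ (1 / (12 * Real.log l)) := Real.rpow_pos_of_pos hk0 _
    rw [show 2 * ((k : ℝ) / (k : ℝ) ^ (1 / (12 * Real.log l))) * 2 ^ e =
      (k * (2 * 2 ^ e)) / (k : ℝ) ^ (1 / (12 * Real.log l)) by ring]
    rw [le_div_iff₀ h8]
    exact mul_le_mul_of_nonneg_left h6 hk0.le
  have h9 := one_le_B2' (l := l) (by omega) hk
  have h10 : (((k - 1) / 2 ^ e : ℕ) : ℝ) ≤ (k : ℝ) / 2 ^ e := by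
    have h11 : ((k - 1) / 2 ^ e : ℕ) ≤ k / 2 ^ e := Nat.div_le_div_right (by omega)
    calc (((k - 1) / 2 ^ e : ℕ) : ℝ) ≤ ((k / 2 ^ e : ℕ) : ℝ) := by exact_mod_cast h11
      _ ≤ (k : ℝ) / ((2 ^ e : ℕ) : ℝ) := Nat.cast_div_le
      _ = _ := by push_cast; rfl
  have h12 : (((k - 1) / 2 ^ e + 2 : ℕ) : ℝ) = (((k - 1) / 2 ^ e : ℕ) : ℝ) + 2 := by
    push_cast; ring
  rw [h12]
  linarith

/-- the explicit bounds -/
theorem final' : ∃ C : ℝ, 0 < C ∧ ∀ l k : ℕ, 1 ≤ l → 1 ≤ k →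
    (f' l k : ℝ) ≤ C * B1' k * (l : ℝ) ^ (k - 1) ∧
    (2 ≤ l → (f' l k : ℝ) ≤ C * B2' l k * (l : ℝ) ^ (k - 1)) ∧
    (f' l k : ℝ) ≤ C * B3 l k * (l : ℝ) ^ (k - 1) := by
  obtain ⟨A1, hA1⟩ := rate1'
  obtain ⟨A2, hA2⟩ := rate2'
  obtain ⟨A3, hA3⟩ := rate3
  refine ⟨257 * (A1 + A2 + A3) + 2, by positivity, fun l k hl hk => ?_⟩
  have b1 := half_le_B1' hk
  have b3 := one_le_B3 (l := l) hk
  have a1 : (0 : ℝ) ≤ A1 := by positivity
  have a2 : (0 : ℝ) ≤ A2 := by positivity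
  have a3 : (0 : ℝ) ≤ A3 := by positivity
  have hlp : (0 : ℝ) < (l : ℝ) ^ (k - 1) := by
    have : (0 : ℝ) < l := by exact_mod_cast hl
    positivity
  rcases Nat.lt_or_ge l 3 with h3 | h3
  · have h1 : (f' l k : ℝ) ≤ (l : ℝ) ^ (k - 1) := by
      exact_mod_cast f_le_pow hl (by omega) hk
    have h2 : ∀ B : ℝ, 1 / 2 ≤ B → (f' l k : ℝ) ≤ (257 * (A1 + A2 + A3) + 2) * B * (l : ℝ) ^ (k - 1) := by
      intro B hB
      have h4 : (1 : ℝ) ≤ (257 * (A1 + A2 + A3) + 2) * B := by nlinarith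
      nlinarith
    exact ⟨h2 _ b1, fun h => h2 _ (by linarith [one_le_B2' h hk]), h2 _ (by linarith)⟩
  · rcases Nat.eq_zero_or_pos (f' l k) with h0 | h0
    · rw [h0]
      have h2 : ∀ B : ℝ, 1 / 2 ≤ B →
          ((0 : ℕ) : ℝ) ≤ (257 * (A1 + A2 + A3) + 2) * B * (l : ℝ) ^ (k - 1) := by
        intro B hB
        have : (0 : ℝ) ≤ B := by linarith
        push_cast
        positivity
      exact ⟨h2 _ b1, fun h => h2 _ (by linarith [one_le_B2' h hk]), h2 _ (by linarith)⟩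
    obtain ⟨n, lam, hn, c, hL, hR⟩ := exists_avoid hl hk h0
    have hn' : (f' l k : ℝ) ≤ n := by exact_mod_cast hn
    refine ⟨?_, fun h => ?_, ?_⟩
    · obtain ⟨e, he, hB⟩ := conv1' hk
      have h4 := hA1 l h3 (k - 1) c _ lam hL hR e he
      rw [Finset.card_range] at h4
      have h5 : (n : ℝ) ≤ A1 * (((k - 1) / 2 ^ e + 2 : ℕ) : ℝ) * (l : ℝ) ^ (k - 1) := by
        exact_mod_cast h4
      calc (f' l k : ℝ) ≤ n := hn'
        _ ≤ A1 * (((k - 1) / 2 ^ e + 2 : ℕ) : ℝ) * (l : ℝ) ^ (k - 1) := h5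
        _ ≤ A1 * (6 * B1' k) * (l : ℝ) ^ (k - 1) := by gcongr
        _ ≤ (257 * (A1 + A2 + A3) + 2) * B1' k * (l : ℝ) ^ (k - 1) := by
            apply mul_le_mul_of_nonneg_right _ hlp.le
            nlinarith
    · obtain ⟨L, hlL, e, he, hB⟩ := conv2' h3 hk
      have b2 := one_le_B2' h hk
      have h4 := hA2 l h3 L hlL (k - 1) c _ lam hL hR e he
      rw [Finset.card_range] at h4
      have h5 : (n : ℝ) ≤ A2 * (((k - 1) / 2 ^ e + 2 : ℕ) : ℝ) * (l : ℝ) ^ (k - 1) := by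
        exact_mod_cast h4
      calc (f' l k : ℝ) ≤ n := hn'
        _ ≤ A2 * (((k - 1) / 2 ^ e + 2 : ℕ) : ℝ) * (l : ℝ) ^ (k - 1) := h5
        _ ≤ A2 * (6 * B2' l k) * (l : ℝ) ^ (k - 1) := by gcongr
        _ ≤ (257 * (A1 + A2 + A3) + 2) * B2' l k * (l : ℝ) ^ (k - 1) := by
            apply mul_le_mul_of_nonneg_right _ hlp.le
            nlinarith
    · have h4 := hA3 l h3 (k - 1) c _ lam hL hR
      rw [Finset.card_range] at h4
      have hB := conv3 h3 hk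
      have h5 : (n : ℝ) ≤ A3 * ((2 * (Nat.log 2 (k - 1) + 1) ^ 6 *
          ((k - 1) / Nat.sqrt l + 1) + 1 : ℕ) : ℝ) * (l : ℝ) ^ (k - 1) := by
        exact_mod_cast h4
      calc (f' l k : ℝ) ≤ n := hn'
        _ ≤ _ := h5
        _ ≤ A3 * (257 * B3 l k) * (l : ℝ) ^ (k - 1) := by gcongr
        _ ≤ (257 * (A1 + A2 + A3) + 2) * B3 l k * (l : ℝ) ^ (k - 1) := by
            apply mul_le_mul_of_nonneg_right _ hlp.le
            nlinarith


/-- The saving tends to zero. -/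
theorem saving_tendsto (C : ℝ) : Filter.Tendsto
    (fun k : ℕ => C * (k * Real.exp (-(1 / 4) * Real.sqrt (Real.log k))) / k) Filter.atTop
      (nhds 0) := by
  have h1 : Filter.Tendsto (fun k : ℕ => C * Real.exp (-(1 / 4) * Real.sqrt (Real.log k)))
      Filter.atTop (nhds 0) := by
    have h2 : Filter.Tendsto (fun k : ℕ => (1 / 4 : ℝ) * Real.sqrt (Real.log k)) Filter.atTop
        Filter.atTop :=
      Filter.Tendsto.const_mul_atTop (by norm_num)
        (Real.tendsto_sqrt_atTop.comp (Real.tendsto_log_atTop.comp tendsto_natCast_atTop_atTop))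
    have h3 := (Real.tendsto_exp_neg_atTop_nhds_zero.comp h2).const_mul C
    simp only [mul_zero] at h3
    refine h3.congr fun k => ?_
    simp only [Function.comp_apply]
    congr 2
    ring
  refine h1.congr' ?_
  filter_upwards [Filter.eventually_gt_atTop 0] with k hk
  have hk0 : (k : ℝ) ≠ 0 := by
    have : (0 : ℝ) < k := by exact_mod_cast hk
    exact this.ne'
  field_simp

/-- For all positive integers `l, k` the least integer `f(l, k)` exists, and there is a constant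
`C > 0` such that for all positive integers `l, k`: `f(l, k) ≤ φ(k) l^(k-1)` with
`φ(k) = C k exp(-√(log k) / 4)`, where `φ(k) / k → 0`;
`f(l, k) ≤ C k^(1 - 1 / (12 log l)) l^(k-1)` if `l ≥ 2`; and
`f(l, k) ≤ C (1 + log k)^6 (1 + k / √l) l^(k-1)`. -/
theorem result : (∀ l k : ℕ, 1 ≤ l → 1 ≤ k → IsLeast {N : ℕ | Forces l k N} (f l k)) ∧
    ∃ C : ℝ, 0 < C ∧
      Filter.Tendsto (fun k : ℕ => C * (k * Real.exp (-(1 / 4) * Real.sqrt (Real.log k))) / k)
        Filter.atTop (nhds 0) ∧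
      ∀ l k : ℕ, 1 ≤ l → 1 ≤ k →
        (f l k : ℝ) ≤ C * (k * Real.exp (-(1 / 4) * Real.sqrt (Real.log k))) * (l : ℝ) ^ (k - 1) ∧
        (2 ≤ l → (f l k : ℝ) ≤ C * (k : ℝ) ^ (1 - 1 / (12 * Real.log l)) * (l : ℝ) ^ (k - 1)) ∧
        (f l k : ℝ) ≤ C * ((1 + Real.log k) ^ 6 * (1 + k / Real.sqrt l)) * (l : ℝ) ^ (k - 1) := by
  refine ⟨fun l k hl hk => ⟨Pool.Agent.TH780.FR.forces_f hl hk, fun _ h => Nat.sInf_le h⟩, ?_⟩
  obtain ⟨C, hC, h⟩ := final'
  exact ⟨C, hC, saving_tendsto C, h⟩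

end Pool.Agent.Results.MP_f298ee_co.BetterExponents
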